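import Pool.Agent.W680.WH.Stm

set_option autoImplicit false

open scoped ComplexConjugate InnerProductSpace
open Filter

namespace Pool.Agent.W571.WH.Hv

open Pool.Agent.W680.WH

/-- `(c)_i / i!` -/
noncomputable def P (c : ℝ) (i : ℕ) : ℝ := ∏ l ∈ Finset.range i, ((c + l) / (l + 1))

theorem P_zero (c : ℝ) : P c 0 = 1 := by simp [P]

theorem P_succ (c : ℝ) (i : ℕ) : P c (i + 1) = P c i * ((c + i) / (i + 1)) :=
  Finset.prod_range_succ _ _

theorem P_nonneg {c : ℝ} (hc : 0 ≤ c) (i : ℕ) : 0 ≤ P c i :=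
  Finset.prod_nonneg fun l _ => by positivity

theorem P_le_one (i : ℕ) : P (1 / 4) i ≤ 1 := by
  refine Finset.prod_le_one (fun l _ => by positivity) fun l _ => ?_
  rw [div_le_one (by positivity)]
  linarith

theorem P_le (i : ℕ) : P (5 / 4) i ≤ i + 1 := by
  induction i with
  | zero => simp [P_zero]
  | succ i ih =>
    rw [P_succ]
    have h0 : (0 : ℝ) ≤ i := Nat.cast_nonneg i
    have h1 : (5 / 4 + (i : ℝ)) / (i + 1) ≤ (i + 2) / (i + 1) := by
      apply div_le_div_of_nonneg_right _ (by positivity)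
      linarith
    calc P (5 / 4) i * ((5 / 4 + i) / (i + 1)) ≤ (i + 1) * ((i + 2) / (i + 1)) :=
          mul_le_mul ih h1 (by positivity) (by positivity)
      _ = i + 2 := by field_simp
      _ = ((i + 1 : ℕ) : ℝ) + 1 := by push_cast; ring

theorem P_rel (i : ℕ) : P (1 / 4) (i + 1) = P (5 / 4) i * ((1 / 4) / (i + 1)) := by
  induction i with
  | zero => simp [P]
  | succ i ih =>
    rw [P_succ, ih, P_succ]
    push_cast
    have h1 : (i : ℝ) + 1 ≠ 0 := by positivity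
    have h2 : (i : ℝ) + 1 + 1 ≠ 0 := by positivity
    field_simp
    ring

/-- sequence on the integers -/
noncomputable def u (c r : ℝ) (i : ℤ) : ℝ := if 0 ≤ i then P c i.toNat * (-r) ^ i.toNat else 0

theorem u_nat (c r : ℝ) (i : ℕ) : u c r i = P c i * (-r) ^ i := by simp [u]

theorem u_neg (c r : ℝ) {i : ℤ} (h : i < 0) : u c r i = 0 := by simp [u, h]

theorem u_rec (c r : ℝ) (i : ℤ) : ((i : ℝ) + 1) * u c r (i + 1) = -r * (i + c) * u c r i := by
  rcases lt_trichotomy i (-1) with h | h | h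
  · rw [u_neg _ _ (by omega), u_neg _ _ (by omega)]
    simp
  · subst h
    rw [u_neg c r (by norm_num : (-1 : ℤ) < 0)]
    push_cast
    simp
  · obtain ⟨m, rfl⟩ := Int.eq_ofNat_of_zero_le (by omega : 0 ≤ i)
    rw [show ((m : ℤ) + 1) = ((m + 1 : ℕ) : ℤ) by push_cast; rfl, u_nat, u_nat, P_succ, pow_succ]
    push_cast
    have h1 : (m : ℝ) + 1 ≠ 0 := by positivity
    field_simp
    ring

theorem fab (r : ℝ) (i : ℤ) : u (5 / 4) r i + r * u (5 / 4) r (i - 1) = u (1 / 4) r i := by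
  rcases lt_trichotomy i 0 with h | h | h
  · rw [u_neg _ _ h, u_neg _ _ (by omega), u_neg _ _ h]
    simp
  · subst h
    rw [u_neg (5 / 4) r (by norm_num : (0 : ℤ) - 1 < 0)]
    simp [u, P_zero]
  · obtain ⟨m, hm⟩ := Int.eq_ofNat_of_zero_le (by omega : 0 ≤ i - 1)
    have hi : i = ((m + 1 : ℕ) : ℤ) := by push_cast; omega
    rw [hm, hi, u_nat, u_nat, u_nat, P_rel, P_succ, pow_succ]
    have h1 : (m : ℝ) + 1 ≠ 0 := by positivity
    field_simp
    ring

/-- the absolute values -/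
noncomputable def B (r : ℝ) (i : ℤ) : ℝ := if 0 ≤ i then P (1 / 4) i.toNat * r ^ i.toNat else 0

theorem B_nonneg {r : ℝ} (hr : 0 ≤ r) (i : ℤ) : 0 ≤ B r i := by
  unfold B
  split_ifs
  · exact mul_nonneg (P_nonneg (by norm_num) _) (pow_nonneg hr _)
  · exact le_rfl

theorem u_B (r : ℝ) (i : ℤ) : u (1 / 4) r i = (-1) ^ i * B r i := by
  unfold u B
  split_ifs with h
  · obtain ⟨m, rfl⟩ := Int.eq_ofNat_of_zero_le h
    simp only [Int.toNat_natCast, zpow_natCast]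
    rw [neg_pow]
    ring
  · simp

theorem B_zero (r : ℝ) : B r 0 = 1 := by simp [B, P_zero]

theorem B_le {r : ℝ} (hr : 0 ≤ r) (i : ℤ) : |u (1 / 4) r i| ≤ r ^ i.natAbs := by
  rcases lt_or_ge i 0 with h | h
  · rw [u_neg _ _ h, abs_zero]
    positivity
  · obtain ⟨m, rfl⟩ := Int.eq_ofNat_of_zero_le h
    rw [u_nat, abs_mul, abs_pow, abs_neg, abs_of_nonneg hr, abs_of_nonneg (P_nonneg (by norm_num) _),
      Int.natAbs_natCast]
    have := P_le_one m
    have h2 : 0 ≤ r ^ m := by positivity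
    nlinarith

theorem a_le {r ρ : ℝ} (hr : 0 ≤ r) (hrρ : r < ρ) : ∃ C : ℝ, 0 ≤ C ∧
    ∀ i : ℤ, |u (5 / 4) r i| ≤ C * ρ ^ i.natAbs := by
  have hρ : 0 < ρ := lt_of_le_of_lt hr hrρ
  set x := r / ρ with hx
  have hx0 : 0 ≤ x := by positivity
  have hx1 : x < 1 := by rw [hx, div_lt_one hρ]; exact hrρ
  have hxr : r = x * ρ := by rw [hx]; field_simp
  have hs : Summable (fun i : ℕ => ((i : ℝ) + 1) * x ^ i) := by
    have h1 : Summable (fun i : ℕ => (i : ℝ) * x ^ i) := by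
      have := summable_pow_mul_geometric_of_norm_lt_one (R := ℝ) 1 (r := x)
        (by rw [Real.norm_of_nonneg hx0]; exact hx1)
      simpa using this
    have h2 : Summable (fun i : ℕ => x ^ i) := summable_geometric_of_lt_one hx0 hx1
    refine (h1.add h2).congr fun i => ?_
    ring
  refine ⟨∑' i : ℕ, ((i : ℝ) + 1) * x ^ i, tsum_nonneg fun i => by positivity, ?_⟩
  intro i
  rcases lt_or_ge i 0 with h | h
  · rw [u_neg _ _ h, abs_zero]
    have : 0 ≤ ∑' i : ℕ, ((i : ℝ) + 1) * x ^ i := tsum_nonneg fun i => by positivity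
    positivity
  · obtain ⟨m, rfl⟩ := Int.eq_ofNat_of_zero_le h
    rw [u_nat, abs_mul, abs_pow, abs_neg, abs_of_nonneg hr, abs_of_nonneg (P_nonneg (by norm_num) _),
      Int.natAbs_natCast]
    have h3 := hs.le_tsum m fun j _ => by positivity
    calc P (5 / 4) m * r ^ m ≤ ((m : ℝ) + 1) * r ^ m :=
          mul_le_mul_of_nonneg_right (P_le m) (by positivity)
      _ = ((m : ℝ) + 1) * x ^ m * ρ ^ m := by rw [hxr, mul_pow]; ring
      _ ≤ _ := mul_le_mul_of_nonneg_right h3 (by positivity)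

theorem summable_natAbs {x : ℝ} (hx0 : 0 ≤ x) (hx1 : x < 1) :
    Summable (fun j : ℤ => x ^ j.natAbs) := by
  have h := summable_geometric_of_lt_one hx0 hx1
  refine Summable.of_nat_of_neg ?_ ?_
  · simpa using h
  · simpa using h

theorem summable_natAbs2 {x : ℝ} (hx0 : 0 ≤ x) (hx1 : x < 1) :
    Summable (fun j : ℤ => (2 * (j.natAbs : ℝ) + 1) * x ^ j.natAbs) := by
  have h1 : Summable (fun i : ℕ => (i : ℝ) * x ^ i) := by
    have := summable_pow_mul_geometric_of_norm_lt_one (R := ℝ) 1 (r := x)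
      (by rw [Real.norm_of_nonneg hx0]; exact hx1)
    simpa using this
  have h2 : Summable (fun i : ℕ => (2 * (i : ℝ) + 1) * x ^ i) := by
    refine ((h1.mul_left 2).add (summable_geometric_of_lt_one hx0 hx1)).congr fun i => ?_
    ring
  refine Summable.of_nat_of_neg ?_ ?_
  · simpa using h2
  · simpa using h2

theorem om_le (n : ℤ) : om n ≤ 2 * (n.natAbs : ℝ) + 1 := by
  have key : ∀ m : ℕ, om (m : ℤ) ≤ 2 * (m : ℝ) + 1 := by
    intro m
    induction m with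
    | zero => simp [om_zero]
    | succ m ih =>
      have h := om_succ_nat m
      push_cast
      rw [h]
      have h0 : (0 : ℝ) ≤ m := Nat.cast_nonneg m
      calc om (m : ℤ) * ((4 * (m : ℝ) + 3) / (4 * m + 1))
          ≤ (2 * m + 1) * ((4 * (m : ℝ) + 3) / (4 * m + 1)) :=
            mul_le_mul_of_nonneg_right ih (by positivity)
        _ ≤ 2 * (m + 1) + 1 := by
            rw [← mul_div_assoc, div_le_iff₀ (by positivity)]
            nlinarith
  obtain ⟨m, rfl | rfl⟩ := n.eq_nat_or_neg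
  · simpa using key m
  · rw [om_neg]
    simpa using key m

section main

variable {r : ℝ}

/-- bound for the terms -/
theorem term_le {ρ C : ℝ} (hr : 0 ≤ r) (hrρ : r < ρ) (hρ1 : ρ < 1) (hC : 0 ≤ C)
    (ha : ∀ i : ℤ, |u (5 / 4) r i| ≤ C * ρ ^ i.natAbs) (k j : ℤ) :
    |u (5 / 4) r (k + j) * u (1 / 4) r j| ≤ C * ρ ^ k.natAbs * (r / ρ) ^ j.natAbs := by
  have hρ : 0 < ρ := lt_of_le_of_lt hr hrρ
  rw [abs_mul]
  calc |u (5 / 4) r (k + j)| * |u (1 / 4) r j| ≤ (C * ρ ^ (k + j).natAbs) * r ^ j.natAbs :=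
        mul_le_mul (ha _) (B_le hr j) (abs_nonneg _) (by positivity)
    _ = C * (ρ ^ (k + j).natAbs * ρ ^ j.natAbs) * (r / ρ) ^ j.natAbs := by
        rw [div_pow]
        field_simp
    _ ≤ C * ρ ^ k.natAbs * (r / ρ) ^ j.natAbs := by
        refine mul_le_mul_of_nonneg_right (mul_le_mul_of_nonneg_left ?_ hC) (by positivity)
        rw [← pow_add]
        exact pow_le_pow_of_le_one hρ.le hρ1.le (by omega)

theorem term_summable (hr : 0 ≤ r) (hr1 : r < 1) (k : ℤ) :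
    Summable (fun j : ℤ => u (5 / 4) r (k + j) * u (1 / 4) r j) := by
  have hrρ : r < (1 + r) / 2 := by linarith
  have hρ1 : (1 + r) / 2 < 1 := by linarith
  have hρ : 0 < (1 + r) / 2 := by linarith
  obtain ⟨C, hC, ha⟩ := a_le hr hrρ
  refine Summable.of_norm_bounded
    (g := fun j : ℤ => C * ((1 + r) / 2) ^ k.natAbs * (r / ((1 + r) / 2)) ^ j.natAbs) ?_ ?_
  · refine (summable_natAbs (by positivity) ?_).mul_left _
    rw [div_lt_one hρ]
    exact hrρ
  · intro j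
    exact term_le hr hrρ hρ1 hC ha k j

/-- the coordinates of `h` -/
noncomputable def hh (r : ℝ) (k : ℤ) : ℝ := ∑' j : ℤ, u (5 / 4) r (k + j) * u (1 / 4) r j

theorem hh_hasSum (hr : 0 ≤ r) (hr1 : r < 1) (k : ℤ) :
    HasSum (fun j : ℤ => u (5 / 4) r (k + j) * u (1 / 4) r j) (hh r k) :=
  (term_summable hr hr1 k).hasSum

theorem hh_le (hr : 0 ≤ r) (hr1 : r < 1) : ∃ C : ℝ, 0 ≤ C ∧
    ∀ k : ℤ, |hh r k| ≤ C * ((1 + r) / 2) ^ k.natAbs := by
  have hrρ : r < (1 + r) / 2 := by linarith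
  have hρ1 : (1 + r) / 2 < 1 := by linarith
  have hρ : 0 < (1 + r) / 2 := by linarith
  obtain ⟨C, hC, ha⟩ := a_le hr hrρ
  have hx : r / ((1 + r) / 2) < 1 := by
    rw [div_lt_one hρ]
    exact hrρ
  have hx0 : 0 ≤ r / ((1 + r) / 2) := by positivity
  refine ⟨C * ∑' j : ℤ, (r / ((1 + r) / 2)) ^ j.natAbs,
    mul_nonneg hC (tsum_nonneg fun j => by positivity), fun k => ?_⟩
  have h1 := tsum_of_norm_bounded (f := fun j : ℤ => u (5 / 4) r (k + j) * u (1 / 4) r j)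
    (((summable_natAbs hx0 hx).hasSum).mul_left
    (C * ((1 + r) / 2) ^ k.natAbs)) (fun j => by
      rw [Real.norm_eq_abs]
      exact term_le hr hrρ hρ1 hC ha k j)
  unfold hh
  rw [Real.norm_eq_abs] at h1
  calc _ ≤ _ := h1
    _ = _ := by ring

theorem jb_summable (hr : 0 ≤ r) (hr1 : r < 1) (k : ℤ) :
    Summable (fun j : ℤ => 4 * (j : ℝ) * u (1 / 4) r j * u (1 / 4) r (k + j)) := by
  refine Summable.of_norm_bounded
    (g := fun j : ℤ => 2 * ((2 * (j.natAbs : ℝ) + 1) * r ^ j.natAbs)) ?_ ?_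
  · exact (summable_natAbs2 hr hr1).mul_left 2
  · intro j
    rw [Real.norm_eq_abs, abs_mul, abs_mul, abs_mul]
    have h1 : |(j : ℝ)| = (j.natAbs : ℝ) := by
      rw [← Int.cast_abs, ← Int.natCast_natAbs]
      simp
    have h2 : |u (1 / 4) r (k + j)| ≤ 1 := (B_le hr _).trans (pow_le_one₀ hr hr1.le)
    have h3 := B_le hr j
    rw [h1, abs_of_pos (by norm_num : (0 : ℝ) < 4)]
    have h0 : (0 : ℝ) ≤ (j.natAbs : ℝ) := Nat.cast_nonneg _
    have h4 : (0 : ℝ) ≤ r ^ j.natAbs := by positivity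
    calc 4 * (j.natAbs : ℝ) * |u (1 / 4) r j| * |u (1 / 4) r (k + j)|
        ≤ 4 * (j.natAbs : ℝ) * r ^ j.natAbs * 1 := by gcongr
      _ ≤ _ := by nlinarith

theorem hh_rec (hr : 0 ≤ r) (hr1 : r < 1) (k : ℤ) :
    4 * (k : ℝ) * hh r k + (4 * k + 3) * r * hh r (k + 1) + (4 * k + 1) * r * hh r (k - 1) +
      (4 * k + 4) * r ^ 2 * hh r k = 0 := by
  have h1 := (((((hh_hasSum hr hr1 k).mul_left (4 * (k : ℝ))).add
    ((hh_hasSum hr hr1 (k + 1)).mul_left ((4 * (k : ℝ) + 3) * r))).add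
    ((hh_hasSum hr hr1 (k - 1)).mul_left ((4 * (k : ℝ) + 1) * r))).add
    ((hh_hasSum hr hr1 k).mul_left ((4 * (k : ℝ) + 4) * r ^ 2)))
  have h2 := (jb_summable hr hr1 k).hasSum
  have h3 : HasSum (fun j : ℤ => 4 * ((j + 1 : ℤ) : ℝ) * u (1 / 4) r (j + 1) *
      u (1 / 4) r (k + (j + 1)))
      (∑' j : ℤ, 4 * (j : ℝ) * u (1 / 4) r j * u (1 / 4) r (k + j)) :=
    (Equiv.hasSum_iff (Equiv.addRight (1 : ℤ))).2 h2
  have h4 := h3.sub h2
  rw [sub_self] at h4
  refine h1.unique (h4.congr_fun ?_)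
  intro j
  have e1 := u_rec (5 / 4) r (k + j - 1)
  have e2 := u_rec (5 / 4) r (k + j)
  have e3 := u_rec (1 / 4) r j
  have f1 := fab r (k + j)
  have f2 := fab r (k + j + 1)
  rw [show k + j - 1 + 1 = k + j by ring] at e1
  rw [show k + j + 1 - 1 = k + j by ring] at f2
  rw [show k + 1 + j = k + j + 1 by ring, show k - 1 + j = k + j - 1 by ring,
    show k + (j + 1) = k + j + 1 by ring]
  push_cast at e1 e2 ⊢
  linear_combination 4 * u (1 / 4) r j * e1 + 4 * r * u (1 / 4) r j * e2 -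
    4 * u (1 / 4) r (k + j + 1) * e3 - r * (4 * j + 1) * u (1 / 4) r j * f2 -
    4 * j * u (1 / 4) r j * f1

/-- the coefficients -/
noncomputable def gam (r : ℝ) (n : ℤ) : ℝ := ∑' j : ℤ, B r (n + j) * B r j

theorem gam_hasSum (hr : 0 ≤ r) (hr1 : r < 1) (n : ℤ) :
    HasSum (fun j : ℤ => (-1) ^ n * (B r (n + j) * B r j)) (hh r n + r * hh r (n - 1)) := by
  have h1 := (hh_hasSum hr hr1 n).add ((hh_hasSum hr hr1 (n - 1)).mul_left r)
  refine h1.congr_fun fun j => ?_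
  have f1 := fab r (n + j)
  have e1 := u_B r (n + j)
  have e2 := u_B r j
  have e3 : ((-1 : ℝ) ^ j) * (-1) ^ j = 1 := by
    rw [← mul_zpow]
    simp
  rw [zpow_add₀ (by norm_num : (-1 : ℝ) ≠ 0)] at e1
  rw [show n - 1 + j = n + j - 1 by ring]
  have e4 : u (5 / 4) r (n + j) * u (1 / 4) r j + r * (u (5 / 4) r (n + j - 1) * u (1 / 4) r j) =
      u (1 / 4) r (n + j) * u (1 / 4) r j := by
    rw [← f1]
    ring
  rw [e4, e1, e2]
  linear_combination (-1) * (-1 : ℝ) ^ n * B r (n + j) * B r j * e3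

theorem gam_eq (hr : 0 ≤ r) (hr1 : r < 1) (n : ℤ) :
    hh r n + r * hh r (n - 1) = (-1) ^ n * gam r n := by
  rw [← (gam_hasSum hr hr1 n).tsum_eq, tsum_mul_left]
  rfl

theorem gam_nonneg (hr : 0 ≤ r) (n : ℤ) : 0 ≤ gam r n :=
  tsum_nonneg fun j => mul_nonneg (B_nonneg hr _) (B_nonneg hr _)

theorem gam_pos (hr : 0 ≤ r) (hr1 : r < 1) : 0 < gam r 0 := by
  have h1 := (gam_hasSum hr hr1 0).summable
  simp only [zpow_zero, one_mul] at h1
  have h2 := h1.le_tsum 0 fun j _ => mul_nonneg (B_nonneg hr _) (B_nonneg hr _)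
  rw [add_zero, B_zero, mul_one] at h2
  exact lt_of_lt_of_le one_pos h2

theorem gam_neg (n : ℤ) : gam r (-n) = gam r n := by
  unfold gam
  rw [← (Equiv.addRight n).tsum_eq]
  refine tsum_congr fun j => ?_
  simp only [Equiv.coe_addRight]
  rw [show -n + (j + n) = j by ring, mul_comm, add_comm]

end main

theorem hv (hOPC : S_OPC) : S_HV := by
  intro r hr hr1
  obtain ⟨-, cZ, -, cZ2, cadd, csmul, -, -, cext, -, -, -, cex, -⟩ := hOPC
  obtain ⟨C, hC, hle⟩ := hh_le hr hr1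
  have hsum : Summable fun n : ℤ => om n * ‖((hh r n : ℝ) : ℂ)‖ ^ 2 := by
    have hρ : 0 < (1 + r) / 2 := by linarith
    have hρ1 : (1 + r) / 2 < 1 := by linarith
    have h1 := (summable_natAbs2 (x := ((1 + r) / 2) ^ 2) (by positivity)
      (by nlinarith)).mul_left (C ^ 2)
    refine Summable.of_nonneg_of_le (fun n => mul_nonneg (om_pos n).le (by positivity))
      (fun n => ?_) h1
    rw [Complex.norm_real, Real.norm_eq_abs]
    have h2 : |hh r n| ^ 2 ≤ (C * ((1 + r) / 2) ^ n.natAbs) ^ 2 :=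
      pow_le_pow_left₀ (abs_nonneg _) (hle n) 2
    calc om n * |hh r n| ^ 2 ≤ (2 * (n.natAbs : ℝ) + 1) * (C * ((1 + r) / 2) ^ n.natAbs) ^ 2 :=
          mul_le_mul (om_le n) h2 (by positivity) (by positivity)
      _ = _ := by rw [mul_pow, ← pow_mul, ← pow_mul, mul_comm n.natAbs 2]; ring
  obtain ⟨h, hh1⟩ := cex (fun n => ((hh r n : ℝ) : ℂ)) hsum
  refine ⟨h, ?_, gam r, gam_nonneg hr, gam_pos hr hr1, gam_neg, ?_⟩
  · apply cext
    intro n
    have hQ0 : Q h = Z h - Z2 h := rfl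
    have hQ : Q h = Z h + (-1 : ℂ) • Z2 h := by
      rw [hQ0, neg_one_smul, sub_eq_add_neg]
    have hw : ((1 : E →L[ℂ] E) + (r : ℂ) • Z2) ((Z + (r : ℂ) • (1 : E →L[ℂ] E)) h) =
        (Z h + (r : ℂ) • h) + (r : ℂ) • Z2 (Z h + (r : ℂ) • h) := rfl
    rw [hQ, hw]
    simp only [csmul, cadd, cZ2, cZ, hh1]
    have hrec := congrArg (fun x : ℝ => (x : ℂ)) (hh_rec hr hr1 (n - 1))
    rw [show n - 1 + 1 = n by ring] at hrec
    push_cast at hrec ⊢
    have hD : (4 * (n : ℂ) - 1) ≠ 0 := by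
      intro h0
      have h3 : ((4 * n - 1 : ℤ) : ℂ) = 0 := by push_cast; exact h0
      have h4 : (4 * n - 1 : ℤ) = 0 := by exact_mod_cast h3
      omega
    field_simp
    linear_combination (-2) * hrec
  · intro n
    rw [cadd, csmul, cZ, hh1, hh1]
    have h1 := congrArg (fun x : ℝ => (x : ℂ)) (gam_eq hr hr1 n)
    push_cast at h1
    exact h1

end Pool.Agent.W571.WH.Hv
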