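import Pool.Agent.W680.WH.Stm

set_option autoImplicit false

open scoped ComplexConjugate InnerProductSpace
open Filter

namespace Pool.Agent.W571.WH.Uni

open Pool.Agent.W680.WH ContinuousLinearMap

theorem comm_of {R : Type*} [Ring R] [Algebra ℂ R] {p W : R} {r : ℂ} (hr : 1 - r ^ 2 ≠ 0)
    (h : (1 + r • W) * p * (W + r • 1) = (W + r • 1) * p * (1 + r • W)) : p * W = W * p := by
  have h2 : (1 - r ^ 2) • (p * W - W * p) =
      (1 + r • W) * p * (W + r • 1) - (W + r • 1) * p * (1 + r • W) := by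
    simp only [add_mul, mul_add, one_mul, mul_one, smul_mul_assoc, mul_smul_comm, smul_smul,
      smul_add]
    module
  rw [h, sub_self] at h2
  rcases smul_eq_zero.1 h2 with h3 | h3
  · exact absurd h3 hr
  · exact sub_eq_zero.1 h3

theorem flip_of {R : Type*} [Ring R] [Algebra ℂ R] {V W W' : R} {r : ℂ} (h1 : W * W' = 1)
    (h2 : W' * W = 1)
    (h : (1 + r • W) * V * W = (W + r • 1) * V) : (W' + r • 1) * V = (1 + r • W') * V * W' := by
  have e1 : W' * (1 + r • W) = W' + r • 1 := by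
    rw [mul_add, mul_one, mul_smul_comm, h2]
  have e2 : W' * (W + r • 1) = 1 + r • W' := by
    rw [mul_add, h2, mul_smul_comm, mul_one]
  calc (W' + r • 1) * V = (W' * (1 + r • W)) * V * (W * W') := by rw [e1, h1, mul_one]
    _ = W' * ((1 + r • W) * V * W) * W' := by simp only [mul_assoc]
    _ = W' * ((W + r • 1) * V) * W' := by rw [h]
    _ = (W' * (W + r • 1)) * V * W' := by simp only [mul_assoc]
    _ = _ := by rw [e2]

theorem uni (hHV : S_HV) (hREC : S_REC) (hOPA : S_OPA) (hOPC : S_OPC) (hOPJ : S_OPJ)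
    (hINV : S_INV) (hIRR : S_IRR) : S_UNI := by
  intro r hr hr1
  obtain ⟨h, hh, γ, γ0, γp, γs, hco⟩ := hHV r hr hr1
  obtain ⟨⟨ZZi, ZiZ, Z2Zs, ZsZ2⟩, ⟨aZ, aZi⟩, ⟨Zeb, -⟩, -⟩ := hOPA
  obtain ⟨ceb, cZ, -, -, cadd, csmul, -, -, cext, -, -, -, -, copext, -⟩ := hOPC
  obtain ⟨jZ, -, jZi, -, -, jjj, jadd, jsmul, jnorm, -, jeb, jco⟩ := hOPJ
  set g : E := h + (r : ℂ) • Z h with hg
  have hjg : jj g = g := by
    apply cext
    intro n
    rw [jco, hco, hco, γs, map_mul, Complex.conj_ofReal, map_zpow₀, map_neg, map_one]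
    congr 1
    rw [zpow_neg, ← inv_zpow]
    norm_num
  obtain ⟨V0, V0eb, V0Z, V0Z2, V0n⟩ := hREC r h hr hr1 hh hjg
  rw [← hg] at V0eb V0n
  have hg0 : g ≠ 0 := by
    intro h0
    have h1 := hco 0
    have h2 : co (0 : E) 0 = 0 := by
      have := csmul 0 (0 : E) 0
      rw [zero_smul, zero_mul] at this
      exact this
    rw [h0, h2, zpow_zero, one_mul] at h1
    have h3 : (γ 0) = 0 := by exact_mod_cast h1.symm
    exact γp.ne' h3
  have hc : 0 < ‖g‖ := norm_pos_iff.2 hg0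
  set c : ℂ := ((‖g‖⁻¹ : ℝ) : ℂ) with hcdef
  have hcn : ‖c‖ = ‖g‖⁻¹ := by
    rw [hcdef, Complex.norm_real, Real.norm_of_nonneg (by positivity)]
  set V : E →L[ℂ] E := c • V0 with hV
  have hVap : ∀ f, V f = c • V0 f := fun f => rfl
  have hVn : ∀ f, ‖V f‖ = ‖f‖ := by
    intro f
    rw [hVap, norm_smul, hcn, V0n]
    field_simp
  have hVV : adjoint V * V = 1 := (ContinuousLinearMap.norm_map_iff_adjoint_comp_self V).1 hVn
  have hVZ : (1 + (r : ℂ) • Z) * V * Z = (Z + (r : ℂ) • (1 : E →L[ℂ] E)) * V := by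
    rw [hV, mul_smul_comm, smul_mul_assoc, V0Z, mul_smul_comm]
  have hVZ2 : (1 + (r : ℂ) • Z2) * V * Z2 = (Z2 + (r : ℂ) • (1 : E →L[ℂ] E)) * V := by
    rw [hV, mul_smul_comm, smul_mul_assoc, V0Z2, mul_smul_comm]
  have hVeb : V (eb 0) = c • g := by rw [hVap, V0eb]
  have hVZs : (Zs + (r : ℂ) • 1) * V = (1 + (r : ℂ) • Zs) * V * Zs := flip_of Z2Zs ZsZ2 hVZ2
  have hr2 : (1 : ℂ) - (r : ℂ) ^ 2 ≠ 0 := by
    have h1 : (1 - r ^ 2 : ℝ) ≠ 0 := by nlinarith
    intro h0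
    apply h1
    have : (((1 - r ^ 2 : ℝ)) : ℂ) = 0 := by push_cast; exact h0
    exact_mod_cast this
  have aZs : adjoint Zs = Z := by rw [← aZ, adjoint_adjoint]
  -- adjoint of hVZs
  have hadj : adjoint V * (Z + (r : ℂ) • 1) = Z * adjoint V * (1 + (r : ℂ) • Z) := by
    have h1 := congrArg (fun A : E →L[ℂ] E => star A) hVZs
    simp only [star_mul, star_add, star_smul, star_one, star_eq_adjoint, aZs] at h1
    simpa [mul_assoc] using h1
  set p : E →L[ℂ] E := V * adjoint V with hp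
  have hpZ : p * Z = Z * p := by
    apply comm_of hr2
    calc (1 + (r : ℂ) • Z) * p * (Z + (r : ℂ) • 1)
        = (1 + (r : ℂ) • Z) * V * (adjoint V * (Z + (r : ℂ) • 1)) := by
          rw [hp]; simp only [mul_assoc]
      _ = (1 + (r : ℂ) • Z) * V * (Z * adjoint V * (1 + (r : ℂ) • Z)) := by rw [hadj]
      _ = ((1 + (r : ℂ) • Z) * V * Z) * adjoint V * (1 + (r : ℂ) • Z) := by
          simp only [mul_assoc]
      _ = ((Z + (r : ℂ) • 1) * V) * adjoint V * (1 + (r : ℂ) • Z) := by rw [hVZ]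
      _ = _ := by rw [hp]; simp only [mul_assoc]
  have hpa : adjoint p = p := by
    have : star p = p := by
      rw [hp, star_mul, ← star_eq_adjoint, star_star]
    exact this
  have hpZs : p * Zs = Zs * p := by
    have h1 := congrArg (fun A : E →L[ℂ] E => star A) hpZ
    simp only [star_mul, star_eq_adjoint, aZ, hpa] at h1
    exact h1.symm
  obtain ⟨d, hd⟩ := hIRR p hpZ hpZs
  have hpV : p * V = V := by rw [hp, mul_assoc, hVV, mul_one]
  have hd1 : d = 1 := by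
    have h1 : d • V (eb 0) = V (eb 0) := by
      have := congrArg (fun A : E →L[ℂ] E => A (eb 0)) hpV
      rw [hd] at this
      simpa using this
    have h2 : V (eb 0) ≠ 0 := by
      rw [hVeb]
      refine smul_ne_zero ?_ hg0
      rw [← norm_ne_zero_iff, hcn]
      positivity
    have h3 : (d - 1) • V (eb 0) = 0 := by rw [sub_smul, h1, one_smul, sub_self]
    rcases smul_eq_zero.1 h3 with h4 | h4
    · exact sub_eq_zero.1 h4
    · exact absurd h4 h2
  have hp1 : V * adjoint V = 1 := by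
    rw [← hp, hd, hd1, one_smul]
  -- reality
  set V1 : E →L[ℂ] E := LinearMap.mkContinuous
    { toFun := fun f => jj (V (jj f))
      map_add' := fun x y => by rw [jadd, map_add, jadd]
      map_smul' := fun a x => by
        rw [jsmul, map_smul, jsmul, Complex.conj_conj]; rfl } 1 (fun f => by
      change ‖jj (V (jj f))‖ ≤ 1 * ‖f‖
      rw [jnorm, hVn, jnorm, one_mul]) with hV1
  have hV1ap : ∀ f, V1 f = jj (V (jj f)) := fun f => rfl
  have jZ' : ∀ f, Z (jj f) = jj (Zi f) := fun f => (jZi f).symm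
  have h3 : (1 + (r : ℂ) • Zi) * V1 * Zi = (Zi + (r : ℂ) • 1) * V1 := by
    ext1 f
    have h4 := congrArg (fun A : E →L[ℂ] E => jj (A (jj f))) hVZ
    have e1 : ∀ x, ((1 + (r : ℂ) • Z) * V * Z) x = V (Z x) + (r : ℂ) • Z (V (Z x)) := fun x => rfl
    have e2 : ∀ x, ((Z + (r : ℂ) • (1 : E →L[ℂ] E)) * V) x = Z (V x) + (r : ℂ) • V x :=
      fun x => rfl
    have e3 : ∀ x, ((1 + (r : ℂ) • Zi) * V1 * Zi) x = V1 (Zi x) + (r : ℂ) • Zi (V1 (Zi x)) :=
      fun x => rfl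
    have e4 : ∀ x, ((Zi + (r : ℂ) • (1 : E →L[ℂ] E)) * V1) x = Zi (V1 x) + (r : ℂ) • V1 x :=
      fun x => rfl
    simp only [e1, e2] at h4
    rw [jadd, jadd, jsmul, jsmul, Complex.conj_ofReal, jZ, jZ, jZ', ← hV1ap, ← hV1ap] at h4
    rw [e3, e4]
    exact h4
  have h4 : (Z + (r : ℂ) • 1) * V1 = (1 + (r : ℂ) • Z) * V1 * Z := flip_of ZiZ ZZi h3
  have hV1eb : V1 (eb 0) = V (eb 0) := by
    rw [hV1ap, jeb, neg_zero, hVeb, jsmul, hjg, hcdef, Complex.conj_ofReal]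
  obtain ⟨u1, -, -, -, u2, -⟩ := hINV (-(r : ℂ)) (by
    rw [norm_neg, Complex.norm_real, Real.norm_of_nonneg hr]
    exact hr1)
  have i1 : ∀ x : E, (1 + (r : ℂ) • Z) x = 0 → x = 0 := by
    intro x hx
    obtain ⟨w, hw⟩ := u1
    have hw' : (w : E →L[ℂ] E) = 1 + (r : ℂ) • Z := by
      rw [hw, neg_smul, sub_neg_eq_add]
    have h5 : ((w⁻¹ : (E →L[ℂ] E)ˣ) : E →L[ℂ] E) ((w : E →L[ℂ] E) x) = x := by
      change (((w⁻¹ : (E →L[ℂ] E)ˣ) : E →L[ℂ] E) * (w : E →L[ℂ] E)) x = x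
      rw [Units.inv_mul]
      rfl
    rw [hw', hx, map_zero] at h5
    exact h5.symm
  have i2 : ∀ x : E, (Z + (r : ℂ) • (1 : E →L[ℂ] E)) x = 0 → x = 0 := by
    intro x hx
    obtain ⟨w, hw⟩ := u2
    have hw' : (w : E →L[ℂ] E) = Z + (r : ℂ) • (1 : E →L[ℂ] E) := by
      rw [hw, neg_smul, sub_neg_eq_add]
    have h5 : ((w⁻¹ : (E →L[ℂ] E)ˣ) : E →L[ℂ] E) ((w : E →L[ℂ] E) x) = x := by
      change (((w⁻¹ : (E →L[ℂ] E)ˣ) : E →L[ℂ] E) * (w : E →L[ℂ] E)) x = x
      rw [Units.inv_mul]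
      rfl
    rw [hw', hx, map_zero] at h5
    exact h5.symm
  have hD : ∀ n : ℤ, (1 + (r : ℂ) • Z) (V1 (eb (n + 1)) - V (eb (n + 1))) =
      (Z + (r : ℂ) • (1 : E →L[ℂ] E)) (V1 (eb n) - V (eb n)) := by
    intro n
    have h5 : (Z + (r : ℂ) • (1 : E →L[ℂ] E)) (V1 (eb n)) =
        (1 + (r : ℂ) • Z) (V1 (Z (eb n))) :=
      congrArg (fun A : E →L[ℂ] E => A (eb n)) h4
    have h6 : (1 + (r : ℂ) • Z) (V (Z (eb n))) =
        (Z + (r : ℂ) • (1 : E →L[ℂ] E)) (V (eb n)) :=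
      congrArg (fun A : E →L[ℂ] E => A (eb n)) hVZ
    rw [Zeb] at h5 h6
    rw [map_sub, map_sub, h5, h6]
  have hall : ∀ n : ℤ, V1 (eb n) - V (eb n) = 0 := by
    intro n
    induction n using Int.induction_on with
    | zero => rw [hV1eb, sub_self]
    | succ n ih =>
      apply i1
      rw [hD, ih, map_zero]
    | pred n ih =>
      apply i2
      rw [← hD, show (-(n : ℤ) - 1 + 1) = -(n : ℤ) by ring, ih, map_zero]
  have hVV1 : V1 = V := copext _ _ fun n => sub_eq_zero.1 (hall n)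
  refine ⟨V, hVV, hp1, hVZ, ?_, fun n => ‖g‖⁻¹ * γ n, ?_, ?_, ?_⟩
  · intro f
    have h5 := hV1ap (jj f)
    rw [jjj, hVV1] at h5
    exact h5.symm
  · intro n
    exact mul_nonneg (by positivity) (γ0 n)
  · positivity
  · intro n
    rw [hVeb, csmul, hco, hcdef]
    push_cast
    ring

end Pool.Agent.W571.WH.Uni
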